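import Mathlib
import Pool.Agent.H28.Bogatyi

namespace Pool.Agent.Results.MP_01ee34_gt.BogatyiDisproof

/-- The unit sphere `S^d` in `ℝ^(d+1)`. -/
def Sph (d : ℕ) : Set (Fin (d + 1) → ℝ) := {x | ∑ k, x k ^ 2 = 1}

/-- `F` contains a congruent copy of `A`: some rotation `R ∈ SO(d+1)` maps `A` into `F`. -/
def ContainsCopy {d : ℕ} (F A : Set (Fin (d + 1) → ℝ)) : Prop :=
  ∃ R ∈ Matrix.specialOrthogonalGroup (Fin (d + 1)) ℝ, ∀ a ∈ A, R.mulVec a ∈ F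

/-- `F 0, …, F (m-1)` is a closed cover of the unit sphere `S^d`. -/
def IsClosedCover {d m : ℕ} (F : Fin m → Set (Fin (d + 1) → ℝ)) : Prop :=
  (∀ i, IsClosed (F i)) ∧ ⋃ i, F i = Sph d

/-- Bogatyi's conjecture, for all `d ≥ 1` and `m ≥ 1`. -/
def BogatyiConjecture : Prop :=
  ∀ d m : ℕ, 1 ≤ d → 1 ≤ m → ∀ F : Fin m → Set (Fin (d + 1) → ℝ), IsClosedCover F →
    ∃ i, ∀ A : Finset (Fin (d + 1) → ℝ), (∀ a ∈ A, a ∈ Sph d) →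
      (A.card : ℤ) = (d : ℤ) - m + 3 → ContainsCopy (F i) A

/-- **Disproof of Bogatyi's conjecture**, failing already for `m = 2` and every `d ≥ 2`. -/
theorem result : ¬ BogatyiConjecture ∧
    ∀ d : ℕ, 2 ≤ d → ∃ F : Fin 2 → Set (Fin (d + 1) → ℝ), IsClosedCover F ∧
      ∀ i, ∃ A : Finset (Fin (d + 1) → ℝ), (∀ a ∈ A, a ∈ Sph d) ∧ A.card = d + 1 ∧
        ¬ ContainsCopy (F i) A := by
  have key : ∀ d : ℕ, 2 ≤ d → ∃ F : Fin 2 → Set (Fin (d + 1) → ℝ), IsClosedCover F ∧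
      ∀ i, ∃ A : Finset (Fin (d + 1) → ℝ), (∀ a ∈ A, a ∈ Sph d) ∧ A.card = d + 1 ∧
        ¬ ContainsCopy (F i) A := by
    intro d hd
    obtain ⟨n, rfl⟩ : ∃ n, d = n + 2 := ⟨d - 2, by omega⟩
    obtain ⟨F, hF, hF', h⟩ := Pool.Agent.H28.Bogatyi.main n
    refine ⟨F, ⟨hF, hF'⟩, fun i => ?_⟩
    obtain ⟨A, hA1, hA2, hA3⟩ := h i
    exact ⟨A, hA1, hA2, fun ⟨R, hR, hρ⟩ => hA3 R hR fun a ha => hρ a ha⟩
  refine ⟨?_, key⟩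
  intro hconj
  obtain ⟨F, hF, h⟩ := key 2 le_rfl
  obtain ⟨i, hi⟩ := hconj 2 2 (by norm_num) (by norm_num) F hF
  obtain ⟨A, hA1, hA2, hA3⟩ := h i
  exact hA3 (hi A hA1 (by rw [hA2]; norm_num))

end Pool.Agent.Results.MP_01ee34_gt.BogatyiDisproof
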